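import Pool.Agent.MP_b5e119_nt.G94.Defs
import Pool.Agent.MP_b5e119_nt.G27.Defs
import Pool.Agent.MP_5d10af_nt.Mg.Q2_Rem

/-! If `λ` agrees with a real character modulo `N` on most units below `N`, then the conductor
exceeds every power of `log N`. -/

namespace Pool.Agent.G74

open Finset Pool.Agent.G60 Pool.Agent.G94
open Pool.Agent.G27 (re EX UN TAU_s UNI_s)

noncomputable section

def LRG_s : Prop := ∀ η : ℝ, 0 < η → ∃ ε : ℝ, 0 < ε ∧ ∀ A : ℕ, ∃ N₀ : ℕ, ∀ (N : ℕ) [NeZero N],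
  N₀ ≤ N → η * N ≤ N.totient → ∀ (χ : Ch N) (σ : ℤ), χ ^ 2 = 1 → χ ≠ 1 → (σ = 1 ∨ σ = -1) →
    (EX χ σ : ℝ) ≤ ε * N → Real.log N ^ A < χ.conductor

lemma lrg_pd {i j d : ℕ} (hi : d ∈ PD i) (hj : d ∈ PD j) : i = j := by
  have h1 := mem_Ioc.1 (mem_filter.1 hi).1
  have h2 := mem_Ioc.1 (mem_filter.1 hj).1
  have h3 : 2 ^ i < 2 ^ (j + 1) := by omega
  have h4 : 2 ^ j < 2 ^ (i + 1) := by omega
  have := (Nat.pow_lt_pow_iff_right (by norm_num : 1 < 2)).1 h3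
  have := (Nat.pow_lt_pow_iff_right (by norm_num : 1 < 2)).1 h4
  omega

open Classical in
lemma lrg_rough {m i u : ℕ} (hu : 0 < u) (hi : m ≤ i) :
    {d ∈ PD i | d ∣ u} ⊆ {d ∈ u.divisors | Rough (2 ^ m) d} := by
  intro d hd
  obtain ⟨hd1, hd2⟩ := mem_filter.1 hd
  refine mem_filter.2 ⟨Nat.mem_divisors.2 ⟨hd2, by omega⟩, fun q hq hqd => ?_⟩
  obtain rfl := (Nat.prime_dvd_prime_iff_eq hq (mem_filter.1 hd1).2).1 hqd
  exact (Nat.pow_le_pow_right two_pos hi).trans (mem_Ioc.1 (mem_filter.1 hd1).1).1.le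

lemma lrg_scale (hR : RG_s) (N L m k : ℕ) (B T : Finset ℕ) (D : ℕ → Finset ℕ)
    (hN0 : 0 < N) (hN : N < 2 ^ (L + 1)) (hB : B ⊆ Ico 1 N) (hm : 1 ≤ m)
    (hT : ∀ t ∈ T, t + 1 + m ≤ L) (hk : L + 1 ≤ m * k)
    (hD : ∀ t ∈ T, D t ⊆ PD (L - t - 1) ∧ 2 ^ (L - t - 1) ≤ 8 * L * #(D t)) :
    ∃ d : ℕ → ℕ, (∀ t ∈ T, d t ∈ D t) ∧
      ∑ t ∈ T, (#{n ∈ Icc 1 (2 ^ t) | d t * n ∈ B} : ℝ) / 2 ^ t ≤ 32 * 2 ^ k * L * (#B : ℝ) / N := by
  classical
  obtain ⟨G, hG⟩ : ∃ G : ℕ → ℕ → ℕ, ∀ t d, G t d = #{n ∈ Icc 1 (2 ^ t) | d * n ∈ B} :=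
    ⟨_, fun _ _ => rfl⟩
  have hsum : ∑ t ∈ T, ∑ d ∈ D t, G t d ≤ 2 ^ k * #B := by
    have h1 : ∀ t ∈ T, ∑ d ∈ D t, G t d ≤
        ∑ d ∈ PD (L - t - 1), ∑ u ∈ B, if d ∣ u then 1 else 0 := by
      intro t ht
      refine (sum_le_sum_of_subset (hD t ht).1).trans (sum_le_sum fun d hd => ?_)
      rw [hG, ← card_filter]
      have hd0 := (mem_filter.1 hd).2.pos
      refine card_le_card_of_injOn (fun n => d * n) (fun n hn => ?_) fun a _ b _ h => ?_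
      · have := (mem_filter.1 (mem_coe.1 hn)).2
        exact mem_coe.2 (mem_filter.2 ⟨this, Dvd.intro _ rfl⟩)
      · exact Nat.eq_of_mul_eq_mul_left hd0 h
    refine (sum_le_sum h1).trans ?_
    have h3 : ∑ t ∈ T, ∑ d ∈ PD (L - t - 1), ∑ u ∈ B, (if d ∣ u then 1 else 0) =
        ∑ u ∈ B, ∑ t ∈ T, ∑ d ∈ PD (L - t - 1), (if d ∣ u then 1 else 0) := by
      rw [sum_comm (s := B)]
      exact sum_congr rfl fun t _ => sum_comm
    rw [h3, mul_comm, ← smul_eq_mul]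
    refine sum_le_card_nsmul _ _ _ fun u hu => ?_
    have hu1 := mem_Ico.1 (hB hu)
    have h4 : u < (2 ^ m) ^ k := by
      rw [← pow_mul]
      exact (hu1.2.trans hN).trans_le (Nat.pow_le_pow_right two_pos hk)
    have h5 : 2 ≤ 2 ^ m := by
      calc 2 = 2 ^ 1 := rfl
        _ ≤ 2 ^ m := Nat.pow_le_pow_right two_pos hm
    refine le_trans ?_ (hR (2 ^ m) k u h5 (by omega) h4)
    simp only [← card_filter]
    rw [← card_biUnion]
    · refine card_le_card fun d hd => ?_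
      obtain ⟨t, ht, hd⟩ := mem_biUnion.1 hd
      have h7 := hT t ht
      exact lrg_rough (by omega) (by omega) hd
    · intro s hs t ht hst
      refine disjoint_left.2 fun d h1 h2 => hst ?_
      have := lrg_pd (mem_filter.1 h1).1 (mem_filter.1 h2).1
      have := hT s hs
      have := hT t ht
      omega
  have hex : ∀ t, ∃ d : ℕ, t ∈ T → d ∈ D t ∧
      G t d * 2 ^ (L - t - 1) ≤ 8 * L * ∑ d ∈ D t, G t d := by
    intro t
    by_cases ht : t ∈ T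
    swap
    · exact ⟨1, fun h => absurd h ht⟩
    have h1 := (hD t ht).2
    have hne : (D t).Nonempty := by
      rw [← card_pos]
      have : 0 < 2 ^ (L - t - 1) := by positivity
      by_contra h
      have h' : #(D t) = 0 := by omega
      rw [h'] at h1
      omega
    obtain ⟨d, hd, hmin⟩ := exists_min_image _ (G t) hne
    refine ⟨d, fun _ => ⟨hd, ?_⟩⟩
    have h3 : #(D t) * G t d ≤ ∑ d ∈ D t, G t d := by
      rw [← smul_eq_mul]
      exact card_nsmul_le_sum _ _ _ hmin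
    calc G t d * 2 ^ (L - t - 1) ≤ G t d * (8 * L * #(D t)) := Nat.mul_le_mul_left _ h1
      _ = 8 * L * (#(D t) * G t d) := by ring
      _ ≤ _ := Nat.mul_le_mul_left _ h3
  choose d hd using hex
  refine ⟨d, fun t ht => (hd t ht).1, ?_⟩
  have hP0 : (0 : ℝ) < N := by exact_mod_cast hN0
  rw [le_div_iff₀ hP0, sum_mul]
  have h8 : ∀ t ∈ T, (#{n ∈ Icc 1 (2 ^ t) | d t * n ∈ B} : ℝ) / 2 ^ t * N ≤
      32 * L * ((∑ d ∈ D t, G t d : ℕ) : ℝ) := by
    intro t ht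
    rw [← hG]
    have h7 := hT t ht
    have h1 : (G t (d t) : ℝ) * 2 ^ (L - t - 1) ≤ 8 * L * ((∑ d ∈ D t, G t d : ℕ) : ℝ) := by
      exact_mod_cast (hd t ht).2
    have h2 : (N : ℝ) ≤ 4 * 2 ^ (L - t - 1) * 2 ^ t := by
      have : N ≤ 4 * 2 ^ (L - t - 1) * 2 ^ t := by
        rw [mul_assoc, ← pow_add, show 4 = 2 ^ 2 by norm_num, ← pow_add,
          show 2 + (L - t - 1 + t) = L + 1 by omega]
        exact hN.le
      exact_mod_cast this
    have h3 : (0 : ℝ) < 2 ^ t := by positivity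
    have h4 : (0 : ℝ) ≤ G t (d t) := Nat.cast_nonneg _
    rw [div_mul_eq_mul_div, div_le_iff₀ h3]
    nlinarith [mul_le_mul_of_nonneg_left h2 h4, mul_le_mul_of_nonneg_right h1 h3.le]
  refine (sum_le_sum h8).trans ?_
  rw [← mul_sum, ← Nat.cast_sum]
  have h9 : ((∑ t ∈ T, ∑ d ∈ D t, G t d : ℕ) : ℝ) ≤ 2 ^ k * (#B : ℝ) := by
    exact_mod_cast hsum
  have h10 : (0 : ℝ) ≤ 32 * L := by positivity
  nlinarith [mul_le_mul_of_nonneg_left h9 h10]

lemma lrg_ch (N : ℕ) [NeZero N] (χ : Ch N) (h2 : χ ^ 2 = 1) (h1 : χ ≠ 1) : ∃ f : ℕ → ℝ,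
    Pool.Agent.MP_5d10af_nt.Q2.Ch (2 * χ.conductor) f ∧
      ∀ d : ℕ, d.Prime → 2 < d → ¬d ∣ N → f d = re χ d := by
  have hr : χ.conductor ≠ 0 := χ.conductor_ne_zero
  have : NeZero (2 * χ.conductor) := ⟨by omega⟩
  obtain ⟨ψ, hψ⟩ : ∃ ψ : Ch (2 * χ.conductor), ψ = DirichletCharacter.changeLevel
      (Dvd.intro_left 2 rfl) χ.primitiveCharacter := ⟨_, rfl⟩
  have a1 : χ.primitiveCharacter ^ 2 = 1 := by
    rw [← DirichletCharacter.changeLevel_eq_one_iff χ.conductor_dvd_level, map_pow,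
      DirichletCharacter.changeLevel_primitiveCharacter, h2]
  have a2 : ψ ^ 2 = 1 := by rw [hψ, ← map_pow, a1, map_one]
  have a3 : ψ ≠ 1 := by
    rw [hψ, Ne, DirichletCharacter.changeLevel_eq_one_iff]
    intro h
    apply h1
    rw [← χ.changeLevel_primitiveCharacter, h, map_one]
  refine ⟨fun n => (re ψ n : ℝ), ⟨by omega, ⟨?_, fun m n => ?_, fun n => ?_, ?_⟩, fun n => ?_,
    fun n hn => ?_, ?_⟩, fun d hd hd2 hdN => ?_⟩
  · simp [re]
  · rw [Pool.Agent.G27.re_mul a2]; push_cast; rfl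
  · unfold re; split_ifs <;> simp
  · rw [Pool.Agent.G27.re_nonunit ψ (by simp)]; simp
  · rw [Pool.Agent.G27.re_congr ψ (ZMod.natCast_mod n _)]
  · rw [Pool.Agent.G27.re_nonunit ψ hn]; simp
  · have e1 : ∑ c ∈ range (2 * χ.conductor), ψ (c : ZMod (2 * χ.conductor)) = ∑ u, ψ u := by
      refine sum_nbij (fun x : ℕ => (x : ZMod (2 * χ.conductor))) (fun _ _ => mem_univ _) ?_ ?_
        fun _ _ => rfl
      · intro a ha b hb h
        have ha' : a < 2 * χ.conductor := by simpa using ha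
        have hb' : b < 2 * χ.conductor := by simpa using hb
        have := (ZMod.natCast_eq_natCast_iff' a b _).1 h
        rwa [Nat.mod_eq_of_lt ha', Nat.mod_eq_of_lt hb'] at this
      · intro u _
        exact ⟨u.val, by simpa using ZMod.val_lt u, ZMod.natCast_zmod_val u⟩
    rw [MulChar.sum_eq_zero_of_ne_one a3] at e1
    simp only [← Pool.Agent.G27.re_coe a2] at e1
    exact_mod_cast e1
  · have c1 : d.Coprime N := (Nat.Prime.coprime_iff_not_dvd hd).2 hdN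
    have c2 : d.Coprime (2 * χ.conductor) :=
      Nat.Coprime.mul_right ((Nat.coprime_primes hd Nat.prime_two).2 (by omega))
        (c1.coprime_dvd_right χ.conductor_dvd_level)
    have e1 : ψ (d : ZMod (2 * χ.conductor)) = χ (d : ZMod N) := by
      have u1 := DirichletCharacter.changeLevel_eq_cast_of_dvd' χ.primitiveCharacter
        (Dvd.intro_left 2 rfl) (a := (d : ℤ)) (Nat.isCoprime_iff_coprime.2 c2)
      have u2 := χ.primitiveCharacter_apply_of_isCoprime (a := (d : ℤ))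
        (Nat.isCoprime_iff_coprime.2 c1)
      rw [← hψ] at u1
      simpa using u1.trans u2
    simp only [re, e1]

lemma lrg_cnt (N : ℕ) (χ : Ch N) (h2 : χ ^ 2 = 1) (f : ℕ → ℝ) (i : ℕ) (hi : 1 ≤ i) (s : ℤ)
    (hs : s = 1 ∨ s = -1) (hf1 : ∀ d, |f d| ≤ 1)
    (hf : ∀ d : ℕ, d.Prime → 2 < d → ¬d ∣ N → f d = re χ d) :
    (#(PD i) : ℝ) - 2 * #{d ∈ PD i | d ∣ N} - |∑ d ∈ PD i, f d| ≤
      2 * #{d ∈ PD i | re χ d = s} := by
  have h1 : ∀ d ∈ PD i, (1 : ℝ) - 2 * (if d ∣ N then 1 else 0) + s * f d ≤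
      2 * (if re χ d = s then 1 else 0) := by
    intro d hd
    have hp := (mem_filter.1 hd).2
    have h3 := (mem_Ioc.1 (mem_filter.1 hd).1).1
    have h4 : 2 ^ 1 ≤ 2 ^ i := Nat.pow_le_pow_right two_pos hi
    by_cases h : d ∣ N
    · have := abs_le.1 (hf1 d)
      rw [if_pos h]
      rcases hs with rfl | rfl <;> split_ifs <;> push_cast <;> linarith [this.1, this.2]
    · rw [if_neg h, hf d hp (by omega) h]
      rcases Pool.Agent.G27.re_unit h2 ((Nat.Prime.coprime_iff_not_dvd hp).2 h) with e | e <;>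
        rcases hs with rfl | rfl <;> simp [e] <;> norm_num
  have h3 := sum_le_sum h1
  rw [sum_add_distrib, sum_sub_distrib, ← mul_sum, ← mul_sum, ← mul_sum, sum_boole,
    sum_boole] at h3
  simp only [sum_const, nsmul_eq_mul, mul_one] at h3
  have h4 : -|∑ d ∈ PD i, f d| ≤ s * ∑ d ∈ PD i, f d := by
    rcases hs with rfl | rfl <;> simp [neg_abs_le, le_abs_self]
  linarith

theorem lrg_row (hD : DYP_s) (hR : RG_s) (hT : TAU_s) (hU : UNI_s) : LRG_s := by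
  classical
  intro η hη
  obtain ⟨i₀, hD⟩ := hD
  obtain ⟨K, hK⟩ : ∃ K : ℝ, K = 2 ^ 20 := ⟨_, rfl⟩
  have hK0 : 0 < K := by rw [hK]; positivity
  refine ⟨η / (5120 * K), by positivity, fun A => ?_⟩
  obtain ⟨y₀, hy₀⟩ := Filter.eventually_atTop.1
    (Pool.Agent.MP_5d10af_nt.Q2.prime_chi 2 (2 * A + 1))
  obtain ⟨n₁, hn₁⟩ := exists_nat_ge y₀
  obtain ⟨n₂, hn₂⟩ := exists_nat_ge (8 / η)
  refine ⟨2 ^ (10 * (i₀ + n₁ + n₂ + 1000)), fun N _ h0 hφ χ σ h2 h1 hσ hE => ?_⟩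
  by_contra hc
  rw [not_lt] at hc
  have hN0 : 0 < N := NeZero.pos N
  obtain ⟨l, hl⟩ : ∃ l, l = Nat.log 2 N := ⟨_, rfl⟩
  have a1 : 10 * (i₀ + n₁ + n₂ + 1000) ≤ l := hl ▸ Nat.le_log_of_pow_le (by norm_num) h0
  have a2 : N < 2 ^ (l + 1) := hl ▸ Nat.lt_pow_succ_log_self (by norm_num) N
  have a3 : 2 ^ l ≤ N := hl ▸ Nat.pow_log_le_self 2 hN0.ne'
  clear h0
  obtain ⟨a, ha⟩ : ∃ a, a = l / 10 := ⟨_, rfl⟩
  obtain ⟨f, hf, hfχ⟩ := lrg_ch N χ h2 h1
  have hf1 : ∀ d, |f d| ≤ 1 := fun d => by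
    rcases hf.cm.vals d with e | e | e <;> simp [e]
  have l2 := Real.log_two_gt_d9
  have l3 := Real.log_two_lt_d9
  have b0 : (1000 : ℝ) ≤ a := by exact_mod_cast (by omega : 1000 ≤ a)
  have b1 : Real.log ((2 : ℝ) ^ a) = a * Real.log 2 := Real.log_pow _ _
  have b2 : (l : ℝ) + 1 ≤ 20 * a := by exact_mod_cast (by omega : l + 1 ≤ 20 * a)
  obtain ⟨Y, hY⟩ : ∃ Y : ℝ, Y = Real.log ((2 : ℝ) ^ a) := ⟨_, rfl⟩
  rw [← hY] at b1
  have b3 : 600 ≤ Y := by rw [b1]; nlinarith only [b0, l2]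
  have b4 : Real.log N ≤ Y ^ 2 := by
    have c1 : (N : ℝ) ≤ 2 ^ (l + 1) := by exact_mod_cast a2.le
    have c2 := Real.log_le_log (by exact_mod_cast hN0) c1
    rw [Real.log_pow] at c2
    push_cast at c2
    have c3 : ((l : ℝ) + 1) * Real.log 2 ≤ 20 * Y := by rw [b1]; nlinarith only [b2, l2]
    nlinarith only [c2, c3, b3]
  have b5 : ((2 * χ.conductor : ℕ) : ℝ) ≤ Y ^ (2 * A + 1) := by
    have c1 : Real.log N ^ A ≤ (Y ^ 2) ^ A :=
      pow_le_pow_left₀ (Real.log_natCast_nonneg N) b4 A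
    have c2 : 0 ≤ (Y ^ 2) ^ A := by positivity
    rw [pow_succ, pow_mul]
    push_cast
    nlinarith only [c1, c2, hc, b3]
  have b6 : y₀ ≤ (2 : ℝ) ^ a := by
    have : n₁ ≤ 2 ^ a := le_trans (by omega) (Nat.lt_two_pow_self (n := a)).le
    exact hn₁.trans (by exact_mod_cast this)
  have b7 : 2 ^ 29 * a ≤ 2 ^ a := by
    have c1 : a / 2 < 2 ^ (a / 2) := Nat.lt_two_pow_self
    have c2 : 2 ^ (30 + a / 2) ≤ 2 ^ a := Nat.pow_le_pow_right two_pos (by omega)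
    rw [pow_add] at c2
    omega
  have hDs : ∀ s : ℤ, (s = 1 ∨ s = -1) → ∀ t ∈ Ico (l - 2 * a) (l - a),
      {d ∈ PD (l - t - 1) | re χ d = s} ⊆ PD (l - t - 1) ∧
        2 ^ (l - t - 1) ≤ 8 * l * #{d ∈ PD (l - t - 1) | re χ d = s} := by
    intro s hs t ht
    refine ⟨filter_subset _ _, ?_⟩
    have ht' := mem_Ico.1 ht
    obtain ⟨i, hi⟩ : ∃ i, i = l - t - 1 := ⟨_, rfl⟩
    rw [← hi]
    have c0 : a ≤ i := by omega
    have c1 := lrg_cnt N χ h2 f i (by omega) s hs hf1 hfχ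
    have c2 : (2 : ℝ) ^ i ≤ 2 * l * #(PD i) := by
      have := (hD i (by omega)).trans (Nat.mul_le_mul_right _ (by omega : 2 * (i + 1) ≤ 2 * l))
      exact_mod_cast this
    have c3 : (#{d ∈ PD i | d ∣ N} : ℝ) ≤ 2 ^ 20 := by
      have d1 : N < (2 ^ a) ^ 20 := by
        rw [← pow_mul]
        exact a2.trans_le (Nat.pow_le_pow_right two_pos (by omega))
      have d2 : 2 ^ 1 ≤ 2 ^ a := Nat.pow_le_pow_right two_pos (by omega)
      have := (card_le_card (lrg_rough hN0 c0)).trans (hR (2 ^ a) 20 N d2 hN0 d1)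
      exact_mod_cast this
    have c4 : (2 : ℝ) ^ a ≤ 2 ^ i := pow_le_pow_right₀ (by norm_num) c0
    have c5 := hy₀ _ b6 _ f hf (hY ▸ b5) (2 ^ i) (2 ^ (i + 1)) (by exact_mod_cast c4)
      (Nat.pow_le_pow_right two_pos (by omega))
    rw [← hY] at c5
    have c6 : |∑ d ∈ PD i, f d| * Y ^ 2 ≤ 2 * 2 ^ i := by
      rw [← le_div_iff₀ (by positivity)]
      refine c5.trans (le_of_eq ?_)
      push_cast
      ring
    have c7 : 16 * (l : ℝ) ≤ Y ^ 2 := by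
      have : 0.69 * (a : ℝ) ≤ Y := by rw [b1]; nlinarith only [b0, l2]
      nlinarith only [this, b3, b2, b0]
    have c8 : (2 : ℝ) ^ 29 * a ≤ 2 ^ a := by exact_mod_cast b7
    have c9 : (0 : ℝ) ≤ l := Nat.cast_nonneg _
    have c10 := abs_nonneg (∑ d ∈ PD i, f d)
    have c11 := mul_le_mul_of_nonneg_left c7 c10
    have c12 := mul_le_mul_of_nonneg_left c1 c9
    have c13 := mul_le_mul_of_nonneg_left c3 c9
    have : (2 : ℝ) ^ i ≤ 8 * l * #{d ∈ PD i | re χ d = s} := by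
      linarith only [c2, c4, c6, c8, c11, c12, c13, b2]
    exact_mod_cast this
  obtain ⟨B, hB⟩ : ∃ B : Finset ℕ, B = {n ∈ Ico 1 N | n.Coprime N ∧ lam n ≠ σ * re χ n} :=
    ⟨_, rfl⟩
  have hEx : EX χ σ = #B := by rw [hB]; rfl
  rw [hEx] at hE
  have hsc := fun (s : ℤ) (hs : s = 1 ∨ s = -1) => lrg_scale hR N l a 20 B
    (Ico (l - 2 * a) (l - a)) (fun t => {d ∈ PD (l - t - 1) | re χ d = s}) hN0 a2
    (hB ▸ filter_subset _ _) (by omega) (fun t ht => by have := mem_Ico.1 ht; omega) (by omega)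
    (hDs s hs)
  obtain ⟨d, hd, e1⟩ := hsc 1 (Or.inl rfl)
  obtain ⟨d', hd', e2⟩ := hsc (-1) (Or.inr rfl)
  rw [← hK] at e1 e2
  have hN1 : (0 : ℝ) < N := by exact_mod_cast hN0
  have e3 : 32 * K * l * (#B : ℝ) / N ≤ a * (η / 8) := by
    rw [div_le_iff₀ hN1]
    have c1 : (0 : ℝ) ≤ 32 * K * l := by positivity
    have c2 := mul_le_mul_of_nonneg_left hE c1
    have c3 : 32 * K * l * (η / (5120 * K) * N) = l * (η * N) / 160 := by field_simp; ring
    have c4 : 0 ≤ η * N := by positivity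
    have c5 := mul_le_mul_of_nonneg_right (show (l : ℝ) ≤ 20 * a by linarith only [b2]) c4
    linarith only [c2, c3, c5]
  obtain ⟨t, ht, e4⟩ : ∃ t ∈ Ico (l - 2 * a) (l - a),
      (#{n ∈ Icc 1 (2 ^ t) | d t * n ∈ B} : ℝ) / 2 ^ t +
        (#{n ∈ Icc 1 (2 ^ t) | d' t * n ∈ B} : ℝ) / 2 ^ t ≤ η / 4 := by
    refine exists_le_of_sum_le (nonempty_Ico.2 (by omega)) ?_
    rw [sum_add_distrib, sum_const, Nat.card_Ico, show l - a - (l - 2 * a) = a by omega,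
      nsmul_eq_mul]
    linarith
  have ht' := mem_Ico.1 ht
  have d0 : (0 : ℝ) < 2 ^ t := by positivity
  rw [← add_div, div_le_iff₀ d0] at e4
  have e5 : η / 2 * 2 ^ t ≤ UN N (2 ^ t) := by
    have c1 := (hU N hN0).2 (2 ^ t)
    have c2 := hT.1 N
    have c3 : η * 2 ^ t ≤ ((2 ^ t : ℕ) : ℝ) * N.totient / N := by
      rw [le_div_iff₀ hN1]
      push_cast
      nlinarith only [hφ, d0]
    have c4 : √N ≤ 2 ^ (6 * a) := by
      rw [Real.sqrt_le_left (by positivity), ← pow_mul]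
      have : N ≤ 2 ^ (6 * a * 2) := a2.le.trans (Nat.pow_le_pow_right two_pos (by omega))
      exact_mod_cast this
    have c5 : (2 : ℝ) ^ (6 * a) * 2 ^ a ≤ 2 ^ t := by
      rw [← pow_add]
      exact pow_le_pow_right₀ (by norm_num) (by omega)
    have c6 : 8 ≤ η * 2 ^ a := by
      have : n₂ ≤ 2 ^ a := le_trans (by omega) (Nat.lt_two_pow_self (n := a)).le
      have c7 : (n₂ : ℝ) ≤ 2 ^ a := by exact_mod_cast this
      have := (div_le_iff₀ hη).1 (hn₂.trans c7)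
      linarith
    have c7 : (0 : ℝ) < 2 ^ (6 * a) := by positivity
    have c8 := mul_le_mul_of_nonneg_left c6 c7.le
    have c9 := mul_le_mul_of_nonneg_left c5 hη.le
    linarith only [c1, c2, c3, c4, c7, c8, c9]
  have e6 : UN N (2 ^ t) ≤
      #{n ∈ Icc 1 (2 ^ t) | d t * n ∈ B} + #{n ∈ Icc 1 (2 ^ t) | d' t * n ∈ B} := by
    refine le_trans (card_le_card fun n hn => ?_) (card_union_le _ _)
    obtain ⟨hn1, hn2⟩ := mem_filter.1 hn
    have hn0 := mem_Icc.1 hn1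
    have key : ∀ (q : ℕ) (s : ℤ), (s = 1 ∨ s = -1) → q ∈ {d ∈ PD (l - t - 1) | re χ d = s} →
        q * n ∉ B → -lam n = σ * (s * re χ n) := by
      intro q s hs hq hqB
      obtain ⟨hq1, hq2⟩ := mem_filter.1 hq
      have hqp := (mem_filter.1 hq1).2
      have hq3 := (mem_Ioc.1 (mem_filter.1 hq1).1).2
      have hqN : q.Coprime N := by
        by_contra h
        rw [Pool.Agent.G27.re_nonunit χ h] at hq2
        omega
      have c1 := Nat.mul_le_mul hq3 hn0.2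
      rw [← pow_add, show l - t - 1 + 1 + t = l by omega] at c1
      have c2 : q * n ≠ N := fun h =>
        (Nat.Prime.coprime_iff_not_dvd hqp).1 hqN (Dvd.intro _ h)
      by_contra hne
      apply hqB
      rw [hB]
      refine mem_filter.2 ⟨mem_Ico.2 ⟨Nat.mul_pos hqp.pos hn0.1, by omega⟩,
        Nat.Coprime.mul_left hqN hn2, fun h => hne ?_⟩
      rw [lam_mul hqp.ne_zero (by omega), lam_prime hqp, Pool.Agent.G27.re_mul h2, hq2] at h
      linarith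
    by_contra hcon
    rw [mem_union, not_or, mem_filter, mem_filter] at hcon
    have k1 := key _ 1 (Or.inl rfl) (hd t ht) fun h => hcon.1 ⟨hn1, h⟩
    have k2 := key _ (-1) (Or.inr rfl) (hd' t ht) fun h => hcon.2 ⟨hn1, h⟩
    rcases lam_cases n with e | e <;> rw [e] at k1 k2 <;> linarith
  have e7 : (UN N (2 ^ t) : ℝ) ≤
      #{n ∈ Icc 1 (2 ^ t) | d t * n ∈ B} + #{n ∈ Icc 1 (2 ^ t) | d' t * n ∈ B} := by
    exact_mod_cast e6
  linarith only [mul_pos hη d0, e4, e5, e7]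

end

end Pool.Agent.G74
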