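import Pool.Agent.MP_b5e119_nt.G42X.YDefs
import Pool.Agent.MP_b5e119_nt.G74.LRG

namespace Pool.Agent.G42

open Pool.Agent.G60

theorem smc_row (hD : Pool.Agent.G94.DYP_s) (hR : Pool.Agent.G94.RG_s) (hT : Pool.Agent.G27.TAU_s)
    (hU : Pool.Agent.G27.UNI_s) : SMC_s := by
  intro ε hε
  obtain ⟨δ, hδ, h⟩ := Pool.Agent.G74.lrg_row hD hR hT hU ε hε
  refine ⟨δ, hδ, fun A => ?_⟩
  obtain ⟨N₀, h⟩ := h A
  refine ⟨N₀, fun N _ h0 hφ χ q _ ψ s h2 _ h1 hχ hs hE => ?_⟩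
  have : NeZero (N * q) := ⟨mul_ne_zero (NeZero.ne N) (NeZero.ne q)⟩
  have e : DirichletCharacter.changeLevel (Dvd.intro q rfl : N ∣ N * q) χ =
      DirichletCharacter.changeLevel (Dvd.intro_left N rfl : q ∣ N * q) ψ := by
    ext u
    have hu := ZMod.val_coe_unit_coprime u
    have hu' : IsCoprime (((u : ZMod (N * q)).val : ℕ) : ℤ) ((N * q : ℕ) : ℤ) :=
      Nat.isCoprime_iff_coprime.2 hu
    have a1 := DirichletCharacter.changeLevel_eq_cast_of_dvd' χ (Dvd.intro q rfl) hu'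
    have a2 := DirichletCharacter.changeLevel_eq_cast_of_dvd' ψ (Dvd.intro_left N rfl) hu'
    rw [Int.cast_natCast, Int.cast_natCast, ZMod.natCast_zmod_val] at a1 a2
    rw [a1, a2]
    exact hχ _ (Nat.Coprime.coprime_mul_right_right hu)
  have h3 : χ ≠ 1 := by
    rintro rfl
    rw [map_one] at e
    exact h1 ((DirichletCharacter.changeLevel_eq_one_iff _).1 e.symm)
  have h4 : χ.conductor ≤ q := by
    rw [← χ.conductor_changeLevel (Dvd.intro q rfl : N ∣ N * q), e, ψ.conductor_changeLevel]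
    exact Nat.le_of_dvd (NeZero.pos q) ψ.conductor_dvd_level
  exact (h N h0 hφ χ s h2 h3 hs hE).le.trans (by exact_mod_cast h4)

end Pool.Agent.G42
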