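import Pool.Agent.MP_b5e119_nt.G74.LRG

/-! The conductor bound with exceptions counted relative to the number of units. -/

namespace Pool.Agent.G74

open Finset Pool.Agent.G60 Pool.Agent.G94
open Pool.Agent.G27 (re EX UN TAU_s UNI_s PHI_s)

noncomputable section

def LRGR_s : Prop := ∃ ε : ℝ, 0 < ε ∧ ∀ A : ℕ, ∃ N₀ : ℕ, ∀ (N : ℕ) [NeZero N],
  N₀ ≤ N → ∀ (χ : Ch N) (σ : ℤ), χ ^ 2 = 1 → χ ≠ 1 → (σ = 1 ∨ σ = -1) →
    (EX χ σ : ℝ) ≤ ε * N.totient → Real.log N ^ A < χ.conductor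

theorem lrgr_row (hD : DYP_s) (hR : RG_s) (hT : TAU_s) (hU : UNI_s) (hP : PHI_s) : LRGR_s := by
  classical
  obtain ⟨C, hC, hP⟩ := hP
  obtain ⟨i₀, hD⟩ := hD
  obtain ⟨K, hK⟩ : ∃ K : ℝ, K = 2 ^ 20 := ⟨_, rfl⟩
  have hK0 : 0 < K := by rw [hK]; positivity
  refine ⟨1 / (5120 * K), by positivity, fun A => ?_⟩
  obtain ⟨y₀, hy₀⟩ := Filter.eventually_atTop.1
    (Pool.Agent.MP_5d10af_nt.Q2.prime_chi 2 (2 * A + 1))
  obtain ⟨n₁, hn₁⟩ := exists_nat_ge y₀
  obtain ⟨n₂, hn₂⟩ := exists_nat_ge C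
  refine ⟨2 ^ (10 * (i₀ + n₁ + n₂ + 1000)), fun N _ h0 χ σ h2 h1 hσ hE => ?_⟩
  by_contra hc
  rw [not_lt] at hc
  have hN0 : 0 < N := NeZero.pos N
  obtain ⟨l, hl⟩ : ∃ l, l = Nat.log 2 N := ⟨_, rfl⟩
  have a1 : 10 * (i₀ + n₁ + n₂ + 1000) ≤ l := hl ▸ Nat.le_log_of_pow_le (by norm_num) h0
  have a2 : N < 2 ^ (l + 1) := hl ▸ Nat.lt_pow_succ_log_self (by norm_num) N
  have a3 : 2 ^ l ≤ N := hl ▸ Nat.pow_log_le_self 2 hN0.ne'
  clear h0
  have hN1 : (0 : ℝ) < N := by exact_mod_cast hN0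
  obtain ⟨η, hη0⟩ : ∃ η : ℝ, η = N.totient / N := ⟨_, rfl⟩
  have hφ0 : (0 : ℝ) < N.totient := by exact_mod_cast Nat.totient_pos.2 hN0
  have hη : 0 < η := by rw [hη0]; positivity
  have hφ1 : η * N = N.totient := by rw [hη0]; field_simp
  have hφ := hφ1.le
  replace hE : (EX χ σ : ℝ) ≤ η / (5120 * K) * N := by
    refine hE.trans (le_of_eq ?_)
    rw [← hφ1]; ring
  obtain ⟨a, ha⟩ : ∃ a, a = l / 10 := ⟨_, rfl⟩
  obtain ⟨f, hf, hfχ⟩ := lrg_ch N χ h2 h1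
  have hf1 : ∀ d, |f d| ≤ 1 := fun d => by
    rcases hf.cm.vals d with e | e | e <;> simp [e]
  have l2 := Real.log_two_gt_d9
  have l3 := Real.log_two_lt_d9
  have b0 : (1000 : ℝ) ≤ a := by exact_mod_cast (by omega : 1000 ≤ a)
  have b1 : Real.log ((2 : ℝ) ^ a) = a * Real.log 2 := Real.log_pow _ _
  have b2 : (l : ℝ) + 1 ≤ 20 * a := by exact_mod_cast (by omega : l + 1 ≤ 20 * a)
  obtain ⟨Y, hY⟩ : ∃ Y : ℝ, Y = Real.log ((2 : ℝ) ^ a) := ⟨_, rfl⟩
  rw [← hY] at b1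
  have b3 : 600 ≤ Y := by rw [b1]; nlinarith only [b0, l2]
  have b4 : Real.log N ≤ Y ^ 2 := by
    have c1 : (N : ℝ) ≤ 2 ^ (l + 1) := by exact_mod_cast a2.le
    have c2 := Real.log_le_log (by exact_mod_cast hN0) c1
    rw [Real.log_pow] at c2
    push_cast at c2
    have c3 : ((l : ℝ) + 1) * Real.log 2 ≤ 20 * Y := by rw [b1]; nlinarith only [b2, l2]
    nlinarith only [c2, c3, b3]
  have b5 : ((2 * χ.conductor : ℕ) : ℝ) ≤ Y ^ (2 * A + 1) := by
    have c1 : Real.log N ^ A ≤ (Y ^ 2) ^ A :=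
      pow_le_pow_left₀ (Real.log_natCast_nonneg N) b4 A
    have c2 : 0 ≤ (Y ^ 2) ^ A := by positivity
    rw [pow_succ, pow_mul]
    push_cast
    nlinarith only [c1, c2, hc, b3]
  have b6 : y₀ ≤ (2 : ℝ) ^ a := by
    have : n₁ ≤ 2 ^ a := le_trans (by omega) (Nat.lt_two_pow_self (n := a)).le
    exact hn₁.trans (by exact_mod_cast this)
  have b7 : 2 ^ 29 * a ≤ 2 ^ a := by
    have c1 : a / 2 < 2 ^ (a / 2) := Nat.lt_two_pow_self
    have c2 : 2 ^ (30 + a / 2) ≤ 2 ^ a := Nat.pow_le_pow_right two_pos (by omega)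
    rw [pow_add] at c2
    omega
  have hDs : ∀ s : ℤ, (s = 1 ∨ s = -1) → ∀ t ∈ Ico (l - 2 * a) (l - a),
      {d ∈ PD (l - t - 1) | re χ d = s} ⊆ PD (l - t - 1) ∧
        2 ^ (l - t - 1) ≤ 8 * l * #{d ∈ PD (l - t - 1) | re χ d = s} := by
    intro s hs t ht
    refine ⟨filter_subset _ _, ?_⟩
    have ht' := mem_Ico.1 ht
    obtain ⟨i, hi⟩ : ∃ i, i = l - t - 1 := ⟨_, rfl⟩
    rw [← hi]
    have c0 : a ≤ i := by omega
    have c1 := lrg_cnt N χ h2 f i (by omega) s hs hf1 hfχ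
    have c2 : (2 : ℝ) ^ i ≤ 2 * l * #(PD i) := by
      have := (hD i (by omega)).trans (Nat.mul_le_mul_right _ (by omega : 2 * (i + 1) ≤ 2 * l))
      exact_mod_cast this
    have c3 : (#{d ∈ PD i | d ∣ N} : ℝ) ≤ 2 ^ 20 := by
      have d1 : N < (2 ^ a) ^ 20 := by
        rw [← pow_mul]
        exact a2.trans_le (Nat.pow_le_pow_right two_pos (by omega))
      have d2 : 2 ^ 1 ≤ 2 ^ a := Nat.pow_le_pow_right two_pos (by omega)
      have := (card_le_card (lrg_rough hN0 c0)).trans (hR (2 ^ a) 20 N d2 hN0 d1)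
      exact_mod_cast this
    have c4 : (2 : ℝ) ^ a ≤ 2 ^ i := pow_le_pow_right₀ (by norm_num) c0
    have c5 := hy₀ _ b6 _ f hf (hY ▸ b5) (2 ^ i) (2 ^ (i + 1)) (by exact_mod_cast c4)
      (Nat.pow_le_pow_right two_pos (by omega))
    rw [← hY] at c5
    have c6 : |∑ d ∈ PD i, f d| * Y ^ 2 ≤ 2 * 2 ^ i := by
      rw [← le_div_iff₀ (by positivity)]
      refine c5.trans (le_of_eq ?_)
      push_cast
      ring
    have c7 : 16 * (l : ℝ) ≤ Y ^ 2 := by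
      have : 0.69 * (a : ℝ) ≤ Y := by rw [b1]; nlinarith only [b0, l2]
      nlinarith only [this, b3, b2, b0]
    have c8 : (2 : ℝ) ^ 29 * a ≤ 2 ^ a := by exact_mod_cast b7
    have c9 : (0 : ℝ) ≤ l := Nat.cast_nonneg _
    have c10 := abs_nonneg (∑ d ∈ PD i, f d)
    have c11 := mul_le_mul_of_nonneg_left c7 c10
    have c12 := mul_le_mul_of_nonneg_left c1 c9
    have c13 := mul_le_mul_of_nonneg_left c3 c9
    have : (2 : ℝ) ^ i ≤ 8 * l * #{d ∈ PD i | re χ d = s} := by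
      linarith only [c2, c4, c6, c8, c11, c12, c13, b2]
    exact_mod_cast this
  obtain ⟨B, hB⟩ : ∃ B : Finset ℕ, B = {n ∈ Ico 1 N | n.Coprime N ∧ lam n ≠ σ * re χ n} :=
    ⟨_, rfl⟩
  have hEx : EX χ σ = #B := by rw [hB]; rfl
  rw [hEx] at hE
  have hsc := fun (s : ℤ) (hs : s = 1 ∨ s = -1) => lrg_scale hR N l a 20 B
    (Ico (l - 2 * a) (l - a)) (fun t => {d ∈ PD (l - t - 1) | re χ d = s}) hN0 a2
    (hB ▸ filter_subset _ _) (by omega) (fun t ht => by have := mem_Ico.1 ht; omega) (by omega)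
    (hDs s hs)
  obtain ⟨d, hd, e1⟩ := hsc 1 (Or.inl rfl)
  obtain ⟨d', hd', e2⟩ := hsc (-1) (Or.inr rfl)
  rw [← hK] at e1 e2
  have e3 : 32 * K * l * (#B : ℝ) / N ≤ a * (η / 8) := by
    rw [div_le_iff₀ hN1]
    have c1 : (0 : ℝ) ≤ 32 * K * l := by positivity
    have c2 := mul_le_mul_of_nonneg_left hE c1
    have c3 : 32 * K * l * (η / (5120 * K) * N) = l * (η * N) / 160 := by field_simp; ring
    have c4 : 0 ≤ η * N := by positivity
    have c5 := mul_le_mul_of_nonneg_right (show (l : ℝ) ≤ 20 * a by linarith only [b2]) c4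
    linarith only [c2, c3, c5]
  obtain ⟨t, ht, e4⟩ : ∃ t ∈ Ico (l - 2 * a) (l - a),
      (#{n ∈ Icc 1 (2 ^ t) | d t * n ∈ B} : ℝ) / 2 ^ t +
        (#{n ∈ Icc 1 (2 ^ t) | d' t * n ∈ B} : ℝ) / 2 ^ t ≤ η / 4 := by
    refine exists_le_of_sum_le (nonempty_Ico.2 (by omega)) ?_
    rw [sum_add_distrib, sum_const, Nat.card_Ico, show l - a - (l - 2 * a) = a by omega,
      nsmul_eq_mul]
    linarith
  have ht' := mem_Ico.1 ht
  have d0 : (0 : ℝ) < 2 ^ t := by positivity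
  rw [← add_div, div_le_iff₀ d0] at e4
  have e5 : η / 2 * 2 ^ t ≤ UN N (2 ^ t) := by
    have c1 := (hU N hN0).2 (2 ^ t)
    have c2 := hT.1 N
    have c3 : η * 2 ^ t ≤ ((2 ^ t : ℕ) : ℝ) * N.totient / N := by
      rw [le_div_iff₀ hN1]
      push_cast
      nlinarith only [hφ, d0]
    have c4 : √N ≤ 2 ^ (6 * a) := by
      rw [Real.sqrt_le_left (by positivity), ← pow_mul]
      have : N ≤ 2 ^ (6 * a * 2) := a2.le.trans (Nat.pow_le_pow_right two_pos (by omega))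
      exact_mod_cast this
    have c5 : (2 : ℝ) ^ (6 * a) * 2 ^ a ≤ 2 ^ t := by
      rw [← pow_add]
      exact pow_le_pow_right₀ (by norm_num) (by omega)
    have c6 : 8 ≤ η * 2 ^ a := by
      have f0 : 2 ^ 1 ≤ 2 ^ l := Nat.pow_le_pow_right two_pos (by omega)
      have f1 := hP N (by omega)
      rw [← hl, ← hφ1] at f1
      have f2 : (1 : ℝ) ≤ l := by exact_mod_cast (by omega : 1 ≤ l)
      have f3 : (l : ℝ) ^ (1 / 4 : ℝ) ≤ l := by
        simpa using Real.rpow_le_rpow_of_exponent_le f2 (show (1 / 4 : ℝ) ≤ 1 by norm_num)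
      have f4 : (N : ℝ) * 1 ≤ N * (C * l * η) := by
        have := mul_le_mul_of_nonneg_left f3 (show 0 ≤ C * (η * N) by positivity)
        linarith only [f1, this]
      have f5 := le_of_mul_le_mul_left f4 hN1
      have f6 : 160 * a * a ≤ 2 ^ a := by
        have g1 : a / 4 < 2 ^ (a / 4) := Nat.lt_two_pow_self
        have g2 : 2 ^ (12 + (a / 4 + a / 4)) ≤ 2 ^ a := Nat.pow_le_pow_right two_pos (by omega)
        rw [pow_add, pow_add] at g2
        have g3 : a ≤ 4 * 2 ^ (a / 4) := by omega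
        nlinarith only [g2, Nat.mul_le_mul g3 g3]
      have f7 : (160 : ℝ) * a * a ≤ 2 ^ a := by exact_mod_cast f6
      have f8 : C ≤ a := hn₂.trans (by exact_mod_cast (by omega : n₂ ≤ a))
      have f9 : C * l ≤ a * (20 * a) :=
        mul_le_mul f8 (by linarith only [b2]) (by positivity) (by positivity)
      have f10 := mul_le_mul_of_nonneg_right f9 hη.le
      have f11 := mul_le_mul_of_nonneg_right f7 hη.le
      linarith only [f5, f10, f11]
    have c7 : (0 : ℝ) < 2 ^ (6 * a) := by positivity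
    have c8 := mul_le_mul_of_nonneg_left c6 c7.le
    have c9 := mul_le_mul_of_nonneg_left c5 hη.le
    linarith only [c1, c2, c3, c4, c7, c8, c9]
  have e6 : UN N (2 ^ t) ≤
      #{n ∈ Icc 1 (2 ^ t) | d t * n ∈ B} + #{n ∈ Icc 1 (2 ^ t) | d' t * n ∈ B} := by
    refine le_trans (card_le_card fun n hn => ?_) (card_union_le _ _)
    obtain ⟨hn1, hn2⟩ := mem_filter.1 hn
    have hn0 := mem_Icc.1 hn1
    have key : ∀ (q : ℕ) (s : ℤ), (s = 1 ∨ s = -1) → q ∈ {d ∈ PD (l - t - 1) | re χ d = s} →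
        q * n ∉ B → -lam n = σ * (s * re χ n) := by
      intro q s hs hq hqB
      obtain ⟨hq1, hq2⟩ := mem_filter.1 hq
      have hqp := (mem_filter.1 hq1).2
      have hq3 := (mem_Ioc.1 (mem_filter.1 hq1).1).2
      have hqN : q.Coprime N := by
        by_contra h
        rw [Pool.Agent.G27.re_nonunit χ h] at hq2
        omega
      have c1 := Nat.mul_le_mul hq3 hn0.2
      rw [← pow_add, show l - t - 1 + 1 + t = l by omega] at c1
      have c2 : q * n ≠ N := fun h =>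
        (Nat.Prime.coprime_iff_not_dvd hqp).1 hqN (Dvd.intro _ h)
      by_contra hne
      apply hqB
      rw [hB]
      refine mem_filter.2 ⟨mem_Ico.2 ⟨Nat.mul_pos hqp.pos hn0.1, by omega⟩,
        Nat.Coprime.mul_left hqN hn2, fun h => hne ?_⟩
      rw [lam_mul hqp.ne_zero (by omega), lam_prime hqp, Pool.Agent.G27.re_mul h2, hq2] at h
      linarith
    by_contra hcon
    rw [mem_union, not_or, mem_filter, mem_filter] at hcon
    have k1 := key _ 1 (Or.inl rfl) (hd t ht) fun h => hcon.1 ⟨hn1, h⟩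
    have k2 := key _ (-1) (Or.inr rfl) (hd' t ht) fun h => hcon.2 ⟨hn1, h⟩
    rcases lam_cases n with e | e <;> rw [e] at k1 k2 <;> linarith
  have e7 : (UN N (2 ^ t) : ℝ) ≤
      #{n ∈ Icc 1 (2 ^ t) | d t * n ∈ B} + #{n ∈ Icc 1 (2 ^ t) | d' t * n ∈ B} := by
    exact_mod_cast e6
  linarith only [mul_pos hη d0, e4, e5, e7]

end

end Pool.Agent.G74
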